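import Pool.Agent.Helper80.CB.Stmts

/-!
# A_FIX: an element of the Weyl group preserving a chamber is trivial
-/

set_option autoImplicit false

namespace Pool.Agent.Helper80.CB

open Matrix MvPolynomial

theorem fix_root {n : ℕ} {D : Cpt n} {t : Submodule ℝ (Mat n)} {w : t ≃ₗ[ℝ] t}
    {g : Mat n} (hg : g ∈ D.S) (hgw : ∀ x : t, g * (x : Mat n) * gᴴ = (w x : Mat n))
    {E : Mat n} {α : t →ₗ[ℝ] ℝ} (hE : RootVec D t E α) :
    RootVec D t (gᴴ * E * g) (α ∘ₗ (w : t →ₗ[ℝ] t)) := by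
  have hu := D.unit g hg
  have hu' : g * gᴴ = 1 := mul_eq_one_comm.1 hu
  refine ⟨?_, ?_, ?_, ?_⟩
  · obtain ⟨A, hA, B, hB, hAB⟩ := hE.mem
    have h1 := D.Ad_mem gᴴ (D.star_mem g hg) A hA
    have h2 := D.Ad_mem gᴴ (D.star_mem g hg) B hB
    rw [Matrix.conjTranspose_conjTranspose] at h1 h2
    refine ⟨_, h1, _, h2, ?_⟩
    rw [hAB, Matrix.mul_add, Matrix.add_mul, Matrix.mul_smul, Matrix.smul_mul]
  · intro h
    apply hE.ne
    calc E = (g * gᴴ) * E * (g * gᴴ) := by rw [hu', one_mul, mul_one]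
      _ = g * (gᴴ * E * g) * gᴴ := by simp only [Matrix.mul_assoc]
      _ = 0 := by rw [h]; simp
  · intro x
    have h1 := hE.eig (w x)
    rw [← hgw x] at h1
    have h2 : gᴴ * (g * (x : Mat n) * gᴴ * E - E * (g * (x : Mat n) * gᴴ)) * g =
        (x : Mat n) * (gᴴ * E * g) - gᴴ * E * g * (x : Mat n) := by
      rw [Matrix.mul_sub, Matrix.sub_mul]
      congr 1
      · calc gᴴ * (g * (x : Mat n) * gᴴ * E) * g = (gᴴ * g) * (x : Mat n) * (gᴴ * E * g) := by
              simp only [Matrix.mul_assoc]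
          _ = _ := by rw [hu, one_mul]
      · calc gᴴ * (E * (g * (x : Mat n) * gᴴ)) * g = (gᴴ * E * g) * (x : Mat n) * (gᴴ * g) := by
              simp only [Matrix.mul_assoc]
          _ = _ := by rw [hu, mul_one]
    rw [← h2, h1, Matrix.mul_smul, Matrix.smul_mul]
    rfl
  · intro h
    apply hE.root
    ext x
    have h1 := LinearMap.congr_fun h (w.symm x)
    simpa using h1

/-- elements commuting with a point on which no root vanishes lie in the torus -/
theorem fix_reg (hPROJ : ST_PROJ) {n : ℕ} {D : Cpt n} {t : Submodule ℝ (Mat n)} (ht : Torus D t)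
    (y : t) (hy : ∀ E α, RootVec D t E α → α y ≠ 0) (X : Mat n) (hX : X ∈ D.h)
    (hc : X * (y : Mat n) = (y : Mat n) * X) : X ∈ t := by
  have hdiag : ∀ x : t, (x : Mat n) = Matrix.diagonal (fun i => ((wt t i x : ℝ) : ℂ)) := by
    intro x
    ext i j
    by_cases hij : i = j
    · subst hij
      rw [Matrix.diagonal_apply_eq]
      have h := congrFun (congrFun (D.herm x (ht.le x.2)) i) i
      rw [Matrix.conjTranspose_apply] at h
      exact (Complex.conj_eq_iff_re.1 h).symm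
    · rw [Matrix.diagonal_apply_ne _ hij]
      exact ht.diag x x.2 i j hij
  apply ht.max X hX
  intro x hx
  have hxd := hdiag ⟨x, hx⟩
  change x = _ at hxd
  rw [hxd]
  ext p q
  rw [Matrix.mul_diagonal, Matrix.diagonal_mul]
  by_cases h0 : X p q = 0
  · rw [h0, zero_mul, mul_zero]
  · by_cases hw : wt t p = wt t q
    · rw [hw, mul_comm]
    · exfalso
      obtain ⟨E, hE⟩ := hPROJ n D t ht X hX p q h0 hw
      apply hy E _ hE
      have h1 := congrFun (congrFun hc p) q
      rw [hdiag y, Matrix.mul_diagonal, Matrix.diagonal_mul, mul_comm] at h1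
      have h2 := mul_right_cancel₀ h0 h1
      have h3 : wt t q y = wt t p y := by exact_mod_cast h2
      rw [LinearMap.sub_apply, h3, sub_self]

theorem fix_comm {n : ℕ} {t : Submodule ℝ (Mat n)} {D : Cpt n} (ht : Torus D t)
    (x z : Mat n) (hx : x ∈ t) (hz : z ∈ t) : x * z = z * x := by
  have hdiag : ∀ x ∈ t, x = Matrix.diagonal (fun i => x i i) := by
    intro x hx
    ext i j
    by_cases hij : i = j
    · subst hij; simp
    · rw [Matrix.diagonal_apply_ne _ hij]
      exact ht.diag x hx i j hij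
  rw [hdiag x hx, hdiag z hz, Matrix.diagonal_mul_diagonal, Matrix.diagonal_mul_diagonal]
  congr 1
  ext i
  rw [mul_comm]

theorem st_FIX (hCENT : ST_CENT) (hCONJ : ST_CONJ) (hPROJ : ST_PROJ) (hWFIN : ST_WFIN) :
    ST_FIX := by
  intro n D t hconn ht w hw y hy
  obtain ⟨g, hg, hgw⟩ := id hw
  have hu := D.unit g hg
  have hu' : g * gᴴ = 1 := mul_eq_one_comm.1 hu
  have hfin := hWFIN n D t ht
  -- powers of w
  have hpow : ∀ j : ℕ, w ^ j ∈ weyl D t := fun j => Subgroup.pow_mem _ hw j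
  obtain ⟨m, hm, hwm⟩ : ∃ m : ℕ, 0 < m ∧ w ^ m = 1 := by
    have h1 := isOfFinOrder_of_finite (⟨w, hw⟩ : weyl D t)
    obtain ⟨m, hm, h2⟩ := h1.exists_pow_eq_one
    exact ⟨m, hm, by simpa using congrArg Subtype.val h2⟩
  -- signs
  have hsign : ∀ E α, RootVec D t E α → ∀ j : ℕ, 0 < α ((w ^ j) y) * α y := by
    intro E α hE j
    have h0 : α y ≠ 0 := by
      intro h
      have := hy E α hE
      rw [h, mul_zero] at this
      exact lt_irrefl _ this
    induction j with
    | zero =>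
      simp only [pow_zero]
      exact mul_self_pos.2 h0
    | succ j ih =>
      obtain ⟨gj, hgj, hgjw⟩ := hpow j
      have h1 := hy _ _ (fix_root hgj hgjw hE)
      simp only [LinearMap.comp_apply, LinearEquiv.coe_coe] at h1
      have h2 : (w ^ (j + 1)) y = (w ^ j) (w y) := by
        rw [pow_succ]; rfl
      rw [h2]
      have h3 : α ((w ^ j) (w y)) * α y * (α ((w ^ j) y)) ^ 2 =
          (α ((w ^ j) (w y)) * α ((w ^ j) y)) * (α ((w ^ j) y) * α y) := by ring
      have h4 : 0 < α ((w ^ j) (w y)) * α y * (α ((w ^ j) y)) ^ 2 := by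
        rw [h3]; exact mul_pos h1 ih
      by_contra hneg
      have := mul_nonneg (neg_nonneg.2 (not_lt.1 hneg)) (sq_nonneg (α ((w ^ j) y)))
      linarith
  set y' : t := ∑ j ∈ Finset.range m, (w ^ j) y with hy'
  have hy'ne : ∀ E α, RootVec D t E α → α y' ≠ 0 := by
    intro E α hE h
    have h1 : 0 < ∑ j ∈ Finset.range m, α ((w ^ j) y) * α y := by
      apply Finset.sum_pos
      · intro j _
        exact hsign E α hE j
      · exact Finset.nonempty_range_iff.2 (by omega)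
    rw [← Finset.sum_mul, ← map_sum, ← hy', h, zero_mul] at h1
    exact lt_irrefl _ h1
  have hwy' : w y' = y' := by
    rw [hy', map_sum]
    have h1 : ∀ j ∈ Finset.range m, w ((w ^ j) y) = (w ^ (j + 1)) y := by
      intro j _
      rw [pow_succ']; rfl
    rw [Finset.sum_congr rfl h1]
    have h2 := Finset.sum_range_succ' (fun j => (w ^ j) y) m
    have h3 := Finset.sum_range_succ (fun j => (w ^ j) y) m
    rw [h3, hwm, pow_zero] at h2
    exact (add_right_cancel h2).symm
  have hgy : g * (y' : Mat n) = (y' : Mat n) * g := by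
    have h1 := hgw y'
    rw [hwy'] at h1
    calc g * (y' : Mat n) = g * (y' : Mat n) * (gᴴ * g) := by rw [hu, mul_one]
      _ = (g * (y' : Mat n) * gᴴ) * g := by simp only [Matrix.mul_assoc]
      _ = _ := by rw [h1]
  obtain ⟨Y0, hY0, hexp⟩ := hconn g hg
  have hY0g : Commute Y0 g := by
    rw [← hexp]
    exact ((Commute.refl Y0).smul_right Complex.I).exp_right
  obtain ⟨D', hD'S, hD'h⟩ := hCENT n D {g}
  have hy'D : (y' : Mat n) ∈ D'.h := by
    rw [hD'h]
    refine ⟨ht.le y'.2, ?_⟩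
    intro x hx
    rw [Set.mem_singleton_iff] at hx
    rw [hx, hgy]
  have hY0D : Y0 ∈ D'.h := by
    rw [hD'h]
    refine ⟨hY0, ?_⟩
    intro x hx
    rw [Set.mem_singleton_iff] at hx
    rw [hx]
    exact hY0g
  obtain ⟨c, hc, hcc⟩ := hCONJ n D' y' hy'D Y0 hY0D
  rw [hD'S] at hc
  obtain ⟨hcS, hcg⟩ := hc
  have hcg := hcg g rfl
  have hcu := D.unit c hcS
  have hcu' : c * cᴴ = 1 := mul_eq_one_comm.1 hcu
  have hZh : cᴴ * Y0 * c ∈ D.h := by
    have := D.Ad_mem cᴴ (D.star_mem c hcS) Y0 hY0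
    rwa [Matrix.conjTranspose_conjTranspose] at this
  have hZc : (cᴴ * Y0 * c) * (y' : Mat n) = (y' : Mat n) * (cᴴ * Y0 * c) := by
    calc (cᴴ * Y0 * c) * (y' : Mat n) = cᴴ * Y0 * (c * (y' : Mat n) * (cᴴ * c)) := by
          rw [hcu, mul_one]; simp only [Matrix.mul_assoc]
      _ = cᴴ * (Y0 * (c * (y' : Mat n) * cᴴ)) * c := by simp only [Matrix.mul_assoc]
      _ = cᴴ * ((c * (y' : Mat n) * cᴴ) * Y0) * c := by rw [hcc]
      _ = (cᴴ * c) * (y' : Mat n) * (cᴴ * Y0 * c) := by simp only [Matrix.mul_assoc]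
      _ = _ := by rw [hcu, one_mul]
  have hZt : cᴴ * Y0 * c ∈ t := fix_reg hPROJ ht y' hy'ne _ hZh hZc
  have hexpZ : NormedSpace.exp (Complex.I • (cᴴ * Y0 * c)) = g := by
    have hinv : c⁻¹ = cᴴ := Matrix.inv_eq_left_inv hcu
    have hunit : IsUnit c := ⟨⟨c, cᴴ, hcu', hcu⟩, rfl⟩
    have h1 := Matrix.exp_conj' c (Complex.I • Y0) hunit
    rw [hinv, hexp] at h1
    have h2 : cᴴ * (Complex.I • Y0) * c = Complex.I • (cᴴ * Y0 * c) := by
      rw [Matrix.mul_smul, Matrix.smul_mul]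
    rw [← h2, h1, Matrix.mul_assoc, ← hcg, ← Matrix.mul_assoc, hcu, one_mul]
  ext x : 1
  apply Subtype.ext
  change (w x : Mat n) = (x : Mat n)
  rw [← hgw x]
  have h1 : Commute (x : Mat n) (cᴴ * Y0 * c) := fix_comm ht _ _ x.2 hZt
  have h2 : Commute (x : Mat n) g := by
    rw [← hexpZ]
    exact (h1.smul_right Complex.I).exp_right
  rw [← h2.eq, Matrix.mul_assoc, hu', mul_one]

end Pool.Agent.Helper80.CB
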