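import Pool.Agent.Helper80.CB.Stmts

/-!
# A_ONE: an odd root reflection has a root vector with a single nonzero entry
-/

set_option autoImplicit false

namespace Pool.Agent.Helper80.CB

open Matrix MvPolynomial

theorem one_lval_sub {q : ℕ} {T : Type} [AddCommGroup T] [Module ℝ T]
    (b : Module.Basis (Fin q) ℝ T) (τ : Fin q → ℂ) (l l' : T →ₗ[ℝ] ℝ) (r : ℝ) :
    lval b τ (l - r • l') = lval b τ l - (r : ℂ) * lval b τ l' := by
  unfold lval
  rw [Finset.mul_sum, ← Finset.sum_sub_distrib]
  apply Finset.sum_congr rfl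
  intro s _
  simp only [LinearMap.sub_apply, LinearMap.smul_apply, smul_eq_mul]
  push_cast
  ring

/-- the point `z`, the direction `a`: the second intersection of a line with the unit circle is
unique -/
theorem one_line {z a : ℂ} {s s' : ℝ} (hz : ‖z‖ = 1) (ha : a ≠ 0) (hs : s ≠ 0) (hs' : s' ≠ 0)
    (h : ‖z + s * a‖ = 1) (h' : ‖z + s' * a‖ = 1) : s = s' := by
  have key : ∀ u : ℝ, u ≠ 0 → ‖z + u * a‖ = 1 →
      2 * (z.re * a.re + z.im * a.im) + u * (a.re ^ 2 + a.im ^ 2) = 0 := by
    intro u hu hn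
    have h1 : z.re ^ 2 + z.im ^ 2 = 1 := by
      have := Complex.sq_norm z
      rw [hz, Complex.normSq_apply] at this
      nlinarith
    have h2 : (z.re + u * a.re) ^ 2 + (z.im + u * a.im) ^ 2 = 1 := by
      have := Complex.sq_norm (z + u * a)
      rw [hn, Complex.normSq_apply] at this
      simp at this
      nlinarith
    have h3 : u * (2 * (z.re * a.re + z.im * a.im) + u * (a.re ^ 2 + a.im ^ 2)) = 0 := by
      nlinarith
    exact (mul_eq_zero.1 h3).resolve_left hu
  have k1 := key s hs h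
  have k2 := key s' hs' h'
  have ha2 : a.re ^ 2 + a.im ^ 2 ≠ 0 := by
    intro h0
    apply ha
    have h1 : a.re = 0 := by nlinarith [sq_nonneg a.re, sq_nonneg a.im]
    have h2 : a.im = 0 := by nlinarith [sq_nonneg a.re, sq_nonneg a.im]
    exact Complex.ext h1 h2
  have h3 : (s - s') * (a.re ^ 2 + a.im ^ 2) = 0 := by linarith
  have := (mul_eq_zero.1 h3).resolve_right ha2
  linarith

/-- at most two points `z` of the unit circle have `z + a` on the unit circle -/
theorem one_two {a z1 z2 z3 : ℂ} (ha : a ≠ 0) (h1 : ‖z1‖ = 1) (h2 : ‖z2‖ = 1) (h3 : ‖z3‖ = 1)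
    (g1 : ‖z1 + a‖ = 1) (g2 : ‖z2 + a‖ = 1) (g3 : ‖z3 + a‖ = 1) (h12 : z1 ≠ z2) :
    z3 = z1 ∨ z3 = z2 := by
  have key : ∀ z : ℂ, ‖z‖ = 1 → ‖z + a‖ = 1 → (z * (starRingEnd ℂ) a).re = - (a.re ^ 2 + a.im ^ 2) / 2 ∧
      (z * (starRingEnd ℂ) a).im ^ 2 = (a.re ^ 2 + a.im ^ 2) - (a.re ^ 2 + a.im ^ 2) ^ 2 / 4 := by
    intro z hz hn
    have e1 : z.re ^ 2 + z.im ^ 2 = 1 := by
      have := Complex.sq_norm z
      rw [hz, Complex.normSq_apply] at this
      nlinarith
    have e2 : (z.re + a.re) ^ 2 + (z.im + a.im) ^ 2 = 1 := by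
      have := Complex.sq_norm (z + a)
      rw [hn, Complex.normSq_apply] at this
      simp at this
      nlinarith
    have e3 : (z * (starRingEnd ℂ) a).re = z.re * a.re + z.im * a.im := by simp
    have e4 : (z * (starRingEnd ℂ) a).im = - (z.re * a.im) + z.im * a.re := by simp
    have e5 : (z * (starRingEnd ℂ) a).re = - (a.re ^ 2 + a.im ^ 2) / 2 := by
      rw [e3]; linarith
    refine ⟨e5, ?_⟩
    have e6 : (z * (starRingEnd ℂ) a).re ^ 2 + (z * (starRingEnd ℂ) a).im ^ 2 =
        (z.re ^ 2 + z.im ^ 2) * (a.re ^ 2 + a.im ^ 2) := by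
      rw [e3, e4]; ring
    rw [e1, e5] at e6
    linarith
  have ha' : (starRingEnd ℂ) a ≠ 0 := by simpa using ha
  obtain ⟨r1, i1⟩ := key z1 h1 g1
  obtain ⟨r2, i2⟩ := key z2 h2 g2
  obtain ⟨r3, i3⟩ := key z3 h3 g3
  have c12 : (z1 * (starRingEnd ℂ) a).im = (z2 * (starRingEnd ℂ) a).im ∨
      (z1 * (starRingEnd ℂ) a).im = - (z2 * (starRingEnd ℂ) a).im :=
    sq_eq_sq_iff_eq_or_eq_neg.1 (by rw [i1, i2])
  have c31 : (z3 * (starRingEnd ℂ) a).im = (z1 * (starRingEnd ℂ) a).im ∨
      (z3 * (starRingEnd ℂ) a).im = - (z1 * (starRingEnd ℂ) a).im :=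
    sq_eq_sq_iff_eq_or_eq_neg.1 (by rw [i3, i1])
  have conc : ∀ x y : ℂ, (x * (starRingEnd ℂ) a).re = (y * (starRingEnd ℂ) a).re →
      (x * (starRingEnd ℂ) a).im = (y * (starRingEnd ℂ) a).im → x = y := by
    intro x y hr hi
    exact mul_right_cancel₀ ha' (Complex.ext hr hi)
  rcases c31 with h | h
  · left
    exact conc z3 z1 (by rw [r3, r1]) h
  · right
    rcases c12 with h' | h'
    · exact absurd (conc z1 z2 (by rw [r1, r2]) h') h12
    · apply conc z3 z2 (by rw [r3, r2])
      rw [h, h', neg_neg]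

theorem one_swap {n : ℕ} (σ : Equiv.Perm (Fin n)) (i j k l : Fin n) (hij : i ≠ j) (hkl : k ≠ l)
    (hik : i ≠ k) (hil : i ≠ l) (hjk : j ≠ k) (hjl : j ≠ l) (h1 : σ i = j) (h2 : σ j = i)
    (h3 : σ k = l) (h4 : σ l = k) (h5 : ∀ p, σ p ≠ p → p = i ∨ p = j ∨ p = k ∨ p = l) :
    Equiv.Perm.sign σ = 1 := by
  have : σ = Equiv.swap i j * Equiv.swap k l := by
    ext p
    congr 1
    rw [Equiv.Perm.mul_apply]
    by_cases hp : σ p = p
    · have n1 : p ≠ i := by rintro rfl; exact hij (by rw [← h1, hp])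
      have n2 : p ≠ j := by rintro rfl; exact hij (by rw [← hp, h2])
      have n3 : p ≠ k := by rintro rfl; exact hkl (by rw [← h3, hp])
      have n4 : p ≠ l := by rintro rfl; exact hkl (by rw [← hp, h4])
      rw [Equiv.swap_apply_of_ne_of_ne n3 n4, Equiv.swap_apply_of_ne_of_ne n1 n2, hp]
    · rcases h5 p hp with rfl | rfl | rfl | rfl
      · rw [Equiv.swap_apply_of_ne_of_ne hik hil, Equiv.swap_apply_left, h1]
      · rw [Equiv.swap_apply_of_ne_of_ne hjk hjl, Equiv.swap_apply_right, h2]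
      · rw [Equiv.swap_apply_left, Equiv.swap_apply_of_ne_of_ne hil.symm hjl.symm, h3]
      · rw [Equiv.swap_apply_right, Equiv.swap_apply_of_ne_of_ne hik.symm hjk.symm, h4]
  rw [this, Equiv.Perm.sign_mul, Equiv.Perm.sign_swap hij, Equiv.Perm.sign_swap hkl]
  norm_num

theorem one_wt_real {n : ℕ} {D : Cpt n} {t : Submodule ℝ (Mat n)} (ht : Torus D t) (x : t)
    (i : Fin n) : (x : Mat n) i i = ((wt t i x : ℝ) : ℂ) := by
  have h := congrFun (congrFun (D.herm x (ht.le x.2)) i) i
  rw [Matrix.conjTranspose_apply] at h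
  change (x : Mat n) i i = ((((x : Mat n) i i).re : ℝ) : ℂ)
  exact (Complex.conj_eq_iff_re.1 h).symm

theorem one_wt_sub {n : ℕ} {D : Cpt n} {t : Submodule ℝ (Mat n)} (ht : Torus D t)
    {E : Mat n} {α : t →ₗ[ℝ] ℝ} (hE : RootVec D t E α) {p q : Fin n} (hpq : E p q ≠ 0) :
    wt t p - wt t q = α := by
  ext x
  have h := congrFun (congrFun (hE.eig x) p) q
  have hx : (x : Mat n) = Matrix.diagonal (fun i => (x : Mat n) i i) := by
    ext i j
    by_cases hij : i = j
    · subst hij; simp
    · rw [Matrix.diagonal_apply_ne _ hij]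
      exact ht.diag x x.2 i j hij
  rw [Matrix.sub_apply, Matrix.smul_apply] at h
  rw [hx, Matrix.diagonal_mul, Matrix.mul_diagonal, smul_eq_mul, one_wt_real ht x p,
    one_wt_real ht x q] at h
  have h2 : (((wt t p x : ℝ) : ℂ) - ((wt t q x : ℝ) : ℂ)) * E p q = ((α x : ℝ) : ℂ) * E p q := by
    rw [← h]; ring
  have h3 := mul_right_cancel₀ hpq h2
  rw [LinearMap.sub_apply]
  exact_mod_cast h3

theorem st_ONE : ST_ONE := by
  intro n r D t ht c τ hinj hcirc E α v s σ hR hσ hsign
  obtain ⟨hE, ⟨c0, hc0, hv⟩, hαv, hs⟩ := hR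
  set δ : Fin n → ℂ := fun i => lval c τ (wt t i) with hδ
  have hwtσ : ∀ i, wt t (σ i) = wt t i - (wt t i v) • α := by
    intro i
    ext x
    rw [← hσ i x, hs x, map_sub, map_smul, LinearMap.sub_apply, LinearMap.smul_apply, smul_eq_mul,
      smul_eq_mul]
    ring
  set a : ℂ := lval c τ α with ha
  have hδσ : ∀ i, δ (σ i) = δ i - ((wt t i v : ℝ) : ℂ) * a := by
    intro i
    change lval c τ (wt t (σ i)) = _
    rw [hwtσ i, one_lval_sub]
  have hδE : ∀ p q, E p q ≠ 0 → δ p = δ q + a := by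
    intro p q hpq
    have h1 := one_wt_sub ht hE hpq
    have h2 : lval c τ (wt t p - (1 : ℝ) • wt t q) = a := by rw [one_smul, h1]
    rw [one_lval_sub] at h2
    change lval c τ (wt t p) = lval c τ (wt t q) + a
    rw [← h2]
    push_cast
    ring
  have hpqne : ∀ p q, E p q ≠ 0 → p ≠ q := by
    rintro p q hpq rfl
    apply hE.root
    rw [← one_wt_sub ht hE hpq, sub_self]
  obtain ⟨i, j, hij⟩ : ∃ i j, E i j ≠ 0 := by
    by_contra h
    push Not at h
    exact hE.ne (by ext i j; exact h i j)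
  have ha0 : a ≠ 0 := by
    intro h
    have h1 := hδE i j hij
    rw [h, add_zero] at h1
    exact hpqne i j hij (hinj h1)
  have hnorm : ∀ i, ‖δ i‖ = 1 := hcirc
  have hwv : ∀ p q, E p q ≠ 0 → wt t p v - wt t q v = 2 := by
    intro p q hpq
    rw [← LinearMap.sub_apply, one_wt_sub ht hE hpq, hαv]
  -- a pair with nonzero entry is a 2-cycle
  have hcyc : ∀ p q, E p q ≠ 0 → σ p = q ∧ σ q = p := by
    intro p q hpq
    have h1 := hδE p q hpq
    have h2 := hwv p q hpq
    have hp := hδσ p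
    have hq := hδσ q
    have hwp : wt t p v ≠ 0 := by
      intro h0
      have h3 : wt t q v = -2 := by linarith
      rw [h3] at hq
      have h4 : δ (σ q) = δ q + ((2 : ℝ) : ℂ) * a := by rw [hq]; push_cast; ring
      have h5 := one_line (s := 1) (s' := 2) (hnorm q) ha0 (by norm_num) (by norm_num)
        (by push_cast; rw [one_mul, ← h1]; exact hnorm p) (by rw [← h4]; exact hnorm _)
      norm_num at h5
    have h6 := one_line (z := δ p) (s := -1) (s' := - wt t p v) (hnorm p) ha0 (by norm_num)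
      (by simpa using hwp)
      (by
        have : δ p + ((-1 : ℝ) : ℂ) * a = δ q := by rw [h1]; push_cast; ring
        rw [this]; exact hnorm q)
      (by
        have : δ p + ((- wt t p v : ℝ) : ℂ) * a = δ (σ p) := by rw [hp]; push_cast; ring
        rw [this]; exact hnorm _)
    have h7 : wt t p v = 1 := by linarith
    have h8 : wt t q v = -1 := by linarith
    constructor
    · apply hinj
      rw [hp, h7, h1]; push_cast; ring
    · apply hinj
      rw [hq, h8, h1]; push_cast; ring
  -- a moved index belongs to a pair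
  have hmoved : ∀ p, σ p ≠ p → ∃ q, E p q ≠ 0 ∨ E q p ≠ 0 := by
    intro p hp
    by_contra hno
    push Not at hno
    apply hp
    apply hinj
    have h1 : wt t p v = 0 := by
      change ((v : Mat n) p p).re = 0
      rw [hv, Matrix.smul_apply, Matrix.sub_apply, Matrix.mul_apply, Matrix.mul_apply]
      have e1 : ∑ q, E p q * Eᴴ q p = 0 := Finset.sum_eq_zero (fun q _ => by rw [(hno q).1, zero_mul])
      have e2 : ∑ q, Eᴴ p q * E q p = 0 := Finset.sum_eq_zero (fun q _ => by rw [(hno q).2, mul_zero])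
      rw [e1, e2]
      simp
    rw [hδσ p, h1]
    push_cast
    ring
  -- at most two pairs; two pairs are impossible
  have huniq : ∀ k l, E k l ≠ 0 → k = i ∧ l = j := by
    intro k l hkl
    by_contra hne
    have hcij := hcyc i j hij
    have hckl := hcyc k l hkl
    have hdij := hδE i j hij
    have hdkl := hδE k l hkl
    have n1 := hpqne i j hij
    have n2 := hpqne k l hkl
    have hik : i ≠ k := by
      rintro rfl
      exact hne ⟨rfl, by rw [← hckl.1, hcij.1]⟩
    have hjl : j ≠ l := by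
      rintro rfl
      exact hne ⟨by rw [← hckl.2, hcij.2], rfl⟩
    have h2a : ∀ z w : ℂ, z = w + a → w = z + a → False := by
      intro z w h1 h2
      rw [h1] at h2
      apply ha0
      have : a + a = 0 := by
        have h3 : w + (a + a) = w + 0 := by rw [add_zero, ← add_assoc]; exact h2.symm
        exact add_left_cancel h3
      have h4 : (2 : ℂ) * a = 0 := by rw [two_mul]; exact this
      exact (mul_eq_zero.1 h4).resolve_left (by norm_num)
    have hjk : j ≠ k := by
      rintro rfl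
      have : l = i := by rw [← hckl.1, hcij.2]
      rw [this] at hdkl
      exact h2a _ _ hdij hdkl
    have hil : i ≠ l := by
      rintro rfl
      have : k = j := by rw [← hckl.2, hcij.1]
      exact hjk this.symm
    have hδjl : δ j ≠ δ l := fun h => hjl (hinj h)
    have hs1 := one_swap σ i j k l n1 n2 hik hil hjk hjl hcij.1 hcij.2 hckl.1 hckl.2 (by
      intro p hp
      have hpair : ∀ p' q', E p' q' ≠ 0 → (p' = i ∧ q' = j) ∨ (p' = k ∧ q' = l) := by
        intro p' q' hpq
        have hd := hδE p' q' hpq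
        rcases one_two ha0 (hnorm j) (hnorm l) (hnorm q') (by rw [← hdij]; exact hnorm i)
          (by rw [← hdkl]; exact hnorm k) (by rw [← hd]; exact hnorm p') hδjl with h | h
        · left
          have hq : q' = j := hinj h
          refine ⟨?_, hq⟩
          apply hinj
          rw [hd, hdij, hq]
        · right
          have hq : q' = l := hinj h
          refine ⟨?_, hq⟩
          apply hinj
          rw [hd, hdkl, hq]
      obtain ⟨q, hq | hq⟩ := hmoved p hp
      · rcases hpair p q hq with ⟨h, _⟩ | ⟨h, _⟩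
        · exact Or.inl h
        · exact Or.inr (Or.inr (Or.inl h))
      · rcases hpair q p hq with ⟨_, h⟩ | ⟨_, h⟩
        · exact Or.inr (Or.inl h)
        · exact Or.inr (Or.inr (Or.inr h)))
    rw [hs1] at hsign
    exact absurd hsign (by decide)
  refine ⟨i, j, E i j, hpqne i j hij, hij, ?_⟩
  ext k l
  rw [Matrix.smul_apply, smul_eq_mul]
  by_cases hkl : E k l = 0
  · rw [hkl]
    by_cases hik : i = k
    · by_cases hjl : j = l
      · subst hik; subst hjl; exact absurd hkl hij
      · rw [Matrix.single_apply_of_ne _ _ _ _ _ (fun h => hjl h.2), mul_zero]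
    · rw [Matrix.single_apply_of_ne _ _ _ _ _ (fun h => hik h.1), mul_zero]
  · obtain ⟨rfl, rfl⟩ := huniq k l hkl
    rw [Matrix.single_apply_same, mul_one]

end Pool.Agent.Helper80.CB
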