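import Pool.Agent.Helper80.CB.Stmts

/-!
# A_TOR: existence of a diagonal maximal torus
-/

set_option autoImplicit false

namespace Pool.Agent.Helper80.CB

open Matrix MvPolynomial

theorem tor_diag (n : ℕ) (A : Set (Mat n)) (hherm : ∀ X ∈ A, Xᴴ = X)
    (hcomm : ∀ X ∈ A, ∀ Y ∈ A, X * Y = Y * X) :
    ∃ u : Mat n, uᴴ * u = 1 ∧ ∀ X ∈ A, ∀ i j, i ≠ j → (u * X * uᴴ) i j = 0 := by
  classical
  let T : A → Module.End ℂ (EuclideanSpace ℂ (Fin n)) := fun X => Matrix.toEuclideanLin (X : Mat n)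
  have hT : ∀ X, (T X).IsSymmetric := fun X =>
    Matrix.isSymmetric_toEuclideanLin_iff.2 (hherm X X.2)
  have hC : Pairwise (Function.onFun Commute T) := by
    intro X Y _
    change T X * T Y = T Y * T X
    apply LinearMap.ext
    intro x
    change Matrix.toEuclideanLin (X : Mat n) (Matrix.toEuclideanLin (Y : Mat n) x) =
      Matrix.toEuclideanLin (Y : Mat n) (Matrix.toEuclideanLin (X : Mat n) x)
    simp only [Matrix.toLpLin_apply, Matrix.mulVec_mulVec]
    rw [hcomm X X.2 Y Y.2]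
  have hV := LinearMap.IsSymmetric.directSum_isInternal_of_pairwise_commute hT hC
  have hO := LinearMap.IsSymmetric.orthogonalFamily_iInf_eigenspaces hT
  have hV' := DirectSum.isInternal_ne_bot_iff.2 hV
  have hfin : Finite {α : A → ℂ // (⨅ X, Module.End.eigenspace (T X) (α X)) ≠ ⊥} :=
    Submodule.finite_ne_bot_of_iSupIndep hV.submodule_iSupIndep
  have := Fintype.ofFinite {α : A → ℂ // (⨅ X, Module.End.eigenspace (T X) (α X)) ≠ ⊥}
  have hO' := hO.comp (Subtype.val_injective (p := fun α : A → ℂ =>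
    (⨅ X, Module.End.eigenspace (T X) (α X)) ≠ ⊥))
  have hn : Module.finrank ℂ (EuclideanSpace ℂ (Fin n)) = n := by simp
  let ob := hV'.subordinateOrthonormalBasis hn hO'
  have hob : ∀ a, ob a ∈ (⨅ X, Module.End.eigenspace (T X)
      ((hV'.subordinateOrthonormalBasisIndex hn a hO').1 X)) := fun a =>
    hV'.subordinateOrthonormalBasis_subordinate hn a hO'
  have heig : ∀ (X : A) a, (X : Mat n) *ᵥ (ob a).ofLp =
      ((hV'.subordinateOrthonormalBasisIndex hn a hO').1 X) • (ob a).ofLp := by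
    intro X a
    have h1 := (Submodule.mem_iInf _).1 (hob a) X
    rw [Module.End.mem_eigenspace_iff] at h1
    have h2 := congrArg WithLp.ofLp h1
    change (Matrix.toEuclideanLin (X : Mat n) (ob a)).ofLp = _ at h2
    rw [Matrix.toLpLin_apply] at h2
    exact h2
  have hortho : ∀ a b, ∑ k, (starRingEnd ℂ) ((ob a).ofLp k) * (ob b).ofLp k = if a = b then 1 else 0 := by
    intro a b
    have h1 := (orthonormal_iff_ite.1 ob.orthonormal) a b
    rw [EuclideanSpace.inner_eq_star_dotProduct] at h1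
    rw [← h1]
    unfold dotProduct
    apply Finset.sum_congr rfl
    intro k _
    rw [mul_comm]
    rfl
  refine ⟨Matrix.of fun a k => (starRingEnd ℂ) ((ob a).ofLp k), ?_, ?_⟩
  · rw [mul_eq_one_comm]
    ext a b
    rw [Matrix.mul_apply, Matrix.one_apply, ← hortho a b]
    apply Finset.sum_congr rfl
    intro k _
    rw [Matrix.conjTranspose_apply]
    simp
  · intro X hX a b hab
    have h1 : ∀ k, (X * (Matrix.of fun a k => (starRingEnd ℂ) ((ob a).ofLp k))ᴴ) k b =
        ((hV'.subordinateOrthonormalBasisIndex hn b hO').1 ⟨X, hX⟩) * (ob b).ofLp k := by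
      intro k
      have h2 := congrFun (heig ⟨X, hX⟩ b) k
      rw [Pi.smul_apply, smul_eq_mul] at h2
      rw [← h2, Matrix.mul_apply]
      unfold Matrix.mulVec dotProduct
      apply Finset.sum_congr rfl
      intro l _
      rw [Matrix.conjTranspose_apply]
      simp
    rw [Matrix.mul_assoc, Matrix.mul_apply]
    simp only [h1]
    have h3 : ∑ k, (Matrix.of fun a k => (starRingEnd ℂ) ((ob a).ofLp k)) a k *
        (((hV'.subordinateOrthonormalBasisIndex hn b hO').1 ⟨X, hX⟩) * (ob b).ofLp k) =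
        ((hV'.subordinateOrthonormalBasisIndex hn b hO').1 ⟨X, hX⟩) *
          ∑ k, (starRingEnd ℂ) ((ob a).ofLp k) * (ob b).ofLp k := by
      rw [Finset.mul_sum]
      apply Finset.sum_congr rfl
      intro k _
      simp only [Matrix.of_apply]
      ring
    rw [h3, hortho a b, if_neg hab, mul_zero]

/-- A maximal commuting subspace. -/
theorem tor_max (n : ℕ) (h : Submodule ℝ (Mat n)) :
    ∃ t0 : Submodule ℝ (Mat n), t0 ≤ h ∧ (∀ x ∈ t0, ∀ y ∈ t0, x * y = y * x) ∧
      ∀ X ∈ h, (∀ x ∈ t0, X * x = x * X) → X ∈ t0 := by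
  have hwf : WellFoundedGT (Submodule ℝ (Mat n)) := inferInstance
  obtain ⟨t0, ⟨h1, h2⟩, h3⟩ := hwf.wf.has_min
    {t0 : Submodule ℝ (Mat n) | t0 ≤ h ∧ ∀ x ∈ t0, ∀ y ∈ t0, x * y = y * x}
    ⟨⊥, bot_le, by
      intro x hx y hy
      rw [Submodule.mem_bot] at hx hy
      rw [hx, hy]⟩
  refine ⟨t0, h1, h2, ?_⟩
  intro X hX hXc
  by_contra hno
  apply h3 (t0 ⊔ Submodule.span ℝ {X})
  · refine ⟨sup_le h1 ?_, ?_⟩
    · rw [Submodule.span_le]
      simpa using hX
    · intro x hx y hy
      rw [Submodule.mem_sup] at hx hy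
      obtain ⟨x1, hx1, x2, hx2, rfl⟩ := hx
      obtain ⟨y1, hy1, y2, hy2, rfl⟩ := hy
      rw [Submodule.mem_span_singleton] at hx2 hy2
      obtain ⟨a, rfl⟩ := hx2
      obtain ⟨b, rfl⟩ := hy2
      have e1 := h2 x1 hx1 y1 hy1
      have e2 := hXc x1 hx1
      have e3 := hXc y1 hy1
      simp only [add_mul, mul_add, smul_mul_assoc, mul_smul_comm, e1, e2, e3]
      module
  · refine lt_of_le_of_ne le_sup_left ?_
    intro heq
    apply hno
    rw [heq]
    exact Submodule.mem_sup_right (Submodule.mem_span_singleton_self X)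

/-- conjugation -/
noncomputable def torLin {n : ℕ} (u : Mat n) : Mat n →ₗ[ℝ] Mat n where
  toFun X := uᴴ * X * u
  map_add' X Y := by rw [mul_add, add_mul]
  map_smul' a X := by simp

/-- transport of the group by a unitary matrix -/
noncomputable def torConj {n : ℕ} (D : Cpt n) (u : Mat n) (hu : uᴴ * u = 1) : Cpt n :=
  have hu' : u * uᴴ = 1 := mul_eq_one_comm.1 hu
  have hmul : ∀ g g' : Mat n, uᴴ * (g * g') * u = (uᴴ * g * u) * (uᴴ * g' * u) := by
    intro g g'
    calc uᴴ * (g * g') * u = uᴴ * g * 1 * g' * u := by simp only [Matrix.mul_assoc, Matrix.one_mul]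
      _ = uᴴ * g * (u * uᴴ) * g' * u := by rw [hu']
      _ = _ := by simp only [Matrix.mul_assoc]
  have hst : ∀ g : Mat n, uᴴ * gᴴ * u = (uᴴ * g * u)ᴴ := by
    intro g
    simp only [Matrix.conjTranspose_mul, Matrix.conjTranspose_conjTranspose, Matrix.mul_assoc]
  have hinj : ∀ g g' : Mat n, uᴴ * g * u = uᴴ * g' * u → g = g' := by
    intro g g' h
    have h2 : u * (uᴴ * g * u) * uᴴ = u * (uᴴ * g' * u) * uᴴ := by rw [h]
    calc g = (u * uᴴ) * g * (u * uᴴ) := by rw [hu', one_mul, mul_one]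
      _ = u * (uᴴ * g * u) * uᴴ := by simp only [Matrix.mul_assoc]
      _ = u * (uᴴ * g' * u) * uᴴ := h2
      _ = (u * uᴴ) * g' * (u * uᴴ) := by simp only [Matrix.mul_assoc]
      _ = g' := by rw [hu', one_mul, mul_one]
  { S := {g | uᴴ * g * u ∈ D.S}
    h := D.h.comap (torLin u)
    one_mem := by
      change uᴴ * 1 * u ∈ D.S
      rw [mul_one, hu]
      exact D.one_mem
    mul_mem := by
      intro g hg g' hg'
      change uᴴ * (g * g') * u ∈ D.S
      rw [hmul]
      exact D.mul_mem _ hg _ hg'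
    star_mem := by
      intro g hg
      change uᴴ * gᴴ * u ∈ D.S
      rw [hst]
      exact D.star_mem _ hg
    unit := by
      intro g hg
      apply hinj
      rw [hmul, hst, D.unit _ hg, mul_one, hu]
    closed := by
      apply IsClosed.preimage _ D.closed
      fun_prop
    herm := by
      intro X hX
      apply hinj
      rw [hst]
      exact D.herm _ hX
    exp_mem := by
      intro X hX
      change uᴴ * NormedSpace.exp (Complex.I • X) * u ∈ D.S
      have hinv : u⁻¹ = uᴴ := Matrix.inv_eq_left_inv hu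
      have hunit : IsUnit u := ⟨⟨u, uᴴ, hu', hu⟩, rfl⟩
      have h1 := Matrix.exp_conj' u (Complex.I • X) hunit
      rw [hinv] at h1
      rw [← h1]
      have h2 : uᴴ * (Complex.I • X) * u = Complex.I • (uᴴ * X * u) := by simp
      rw [h2]
      exact D.exp_mem _ hX
    Ad_mem := by
      intro g hg X hX
      change uᴴ * (g * X * gᴴ) * u ∈ D.h
      rw [hmul, hmul, hst]
      exact D.Ad_mem _ hg _ hX
    brk := by
      intro X hX Y hY
      change uᴴ * (Complex.I • (X * Y - Y * X)) * u ∈ D.h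
      have h1 : uᴴ * (Complex.I • (X * Y - Y * X)) * u =
          Complex.I • ((uᴴ * X * u) * (uᴴ * Y * u) - (uᴴ * Y * u) * (uᴴ * X * u)) := by
        rw [← hmul, ← hmul, Matrix.mul_smul, Matrix.smul_mul, Matrix.mul_sub, Matrix.sub_mul]
      rw [h1]
      exact D.brk _ hX _ hY }

theorem st_TOR : ST_TOR := by
  intro n D
  obtain ⟨t0, h1, h2, h3⟩ := tor_max n D.h
  obtain ⟨u, hu, hdiag⟩ := tor_diag n (t0 : Set (Mat n)) (fun X hX => D.herm X (h1 hX)) h2
  have hu' : u * uᴴ = 1 := mul_eq_one_comm.1 hu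
  have hmul : ∀ g g' : Mat n, uᴴ * (g * g') * u = (uᴴ * g * u) * (uᴴ * g' * u) := by
    intro g g'
    calc uᴴ * (g * g') * u = uᴴ * g * 1 * g' * u := by simp only [Matrix.mul_assoc, Matrix.one_mul]
      _ = uᴴ * g * (u * uᴴ) * g' * u := by rw [hu']
      _ = _ := by simp only [Matrix.mul_assoc]
  have hback : ∀ x : Mat n, u * (uᴴ * x * u) * uᴴ = x := by
    intro x
    calc u * (uᴴ * x * u) * uᴴ = (u * uᴴ) * x * (u * uᴴ) := by simp only [Matrix.mul_assoc]
      _ = x := by rw [hu', one_mul, mul_one]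
  have hforth : ∀ x : Mat n, uᴴ * (u * x * uᴴ) * u = x := by
    intro x
    calc uᴴ * (u * x * uᴴ) * u = (uᴴ * u) * x * (uᴴ * u) := by simp only [Matrix.mul_assoc]
      _ = x := by rw [hu, one_mul, mul_one]
  refine ⟨u, torConj D u hu, t0.comap (torLin u), hu, fun g => Iff.rfl, fun X => Iff.rfl, ?_, ?_, ?_⟩
  · intro x hx
    exact h1 hx
  · intro x hx i j hij
    rw [← hback x]
    exact hdiag _ hx i j hij
  · intro X hX hc
    apply h3 _ hX
    intro x hx
    have h4 : u * x * uᴴ ∈ t0.comap (torLin u) := by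
      change uᴴ * (u * x * uᴴ) * u ∈ t0
      rw [hforth]
      exact hx
    have h5 : uᴴ * (X * (u * x * uᴴ)) * u = uᴴ * ((u * x * uᴴ) * X) * u := by rw [hc _ h4]
    rw [hmul X (u * x * uᴴ), hmul (u * x * uᴴ) X, hforth] at h5
    exact h5

end Pool.Agent.Helper80.CB
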