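import Pool.Agent.Helper83.CB.Defs4

set_option autoImplicit false

open Filter Topology MeasureTheory

namespace Pool.Agent.Helper83.CB

section
variable {ι : Type} [Fintype ι] [DecidableEq ι]

/-- permutation of the coordinates as a continuous linear equivalence -/
noncomputable def fpeE (τ : Equiv.Perm ι) : (ι → ℝ) ≃L[ℝ] (ι → ℝ) :=
  (LinearEquiv.funCongrLeft ℝ ℝ τ).toContinuousLinearEquiv

theorem fpe_apply (τ : Equiv.Perm ι) (x : ι → ℝ) : fpeE τ x = x ∘ τ := rfl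

theorem fpe_pd {W : Type*} [NormedAddCommGroup W] [NormedSpace ℝ W] (f : (ι → ℝ) → W)
    (τ : Equiv.Perm ι) (x : ι → ℝ) (ν : ι) :
    pd (fun y => f (y ∘ τ)) x (τ ν) = pd f (x ∘ τ) ν := by
  have h := (fpeE τ).comp_right_fderiv (f := f) (x := x)
  have h2 : (fun y => f (y ∘ τ)) = f ∘ (fpeE τ) := rfl
  unfold pd
  rw [h2, h]
  change fderiv ℝ f (x ∘ τ) (fpeE τ (Pi.single (τ ν) 1)) = _
  congr 1
  rw [fpe_apply]
  ext i
  simp only [Function.comp_apply]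
  by_cases hi : i = ν
  · subst hi
    rw [Pi.single_eq_same, Pi.single_eq_same]
  · rw [Pi.single_eq_of_ne hi, Pi.single_eq_of_ne (fun h => hi (τ.injective h))]

end

theorem st_FPE (hOVER : ST_OVER) : ST_FPE := by
  intro n N0 N hS hU k hk Q0 Q1 hQ ι _ _ π τ hπ hπp L K hF
  have hOo : IsOpen (Metric.ball (0 : ι → ℝ) 3) := Metric.isOpen_ball
  obtain ⟨CL, hL⟩ := hF.lipL
  obtain ⟨CK, hK⟩ := hF.lipK
  have hnorm : ∀ x : ι → ℝ, ‖x ∘ τ‖ ≤ ‖x‖ := by
    intro x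
    rw [pi_norm_le_iff_of_nonneg (norm_nonneg _)]
    intro i
    exact norm_le_pi_norm x (τ i)
  have hshift : LipschitzWith 1 (fun x : ι → ℝ => x ∘ τ) := by
    apply LipschitzWith.of_dist_le_mul
    intro x y
    rw [dist_eq_norm, dist_eq_norm, NNReal.coe_one, one_mul]
    exact hnorm (x - y)
  have hin : ∀ x ∈ Metric.ball (0 : ι → ℝ) 3, x ∈ Metric.closedBall (0 : ι → ℝ) 3 :=
    fun x hx => Metric.ball_subset_closedBall hx
  have hin' : ∀ x ∈ Metric.ball (0 : ι → ℝ) 3, x ∘ τ ∈ Metric.closedBall (0 : ι → ℝ) 3 := by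
    intro x hx
    rw [mem_ball_zero_iff] at hx
    rw [mem_closedBall_zero_iff]
    exact (hnorm x).trans hx.le
  obtain ⟨h1, h2⟩ := hOVER n N0 N hS hU k hk Q0 Q1 hQ ι (Metric.ball (0 : ι → ℝ) 3) π K
    (fun x => K (x ∘ τ)) L
    (fun x => L (x ∘ τ)) (fun _ => 0) hOo hπ ⟨CK, hK.lipschitzOnWith⟩
    ⟨CK * 1, (hK.comp hshift).lipschitzOnWith⟩
    ⟨CL, hL.lipschitzOnWith⟩ ⟨CL * 1, (hL.comp hshift).lipschitzOnWith⟩
    (fun x hx => ⟨hF.mem x (hin x hx), hF.left x (hin x hx), hF.right x (hin x hx)⟩)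
    (fun x hx => ⟨hF.mem _ (hin' x hx), hF.left _ (hin' x hx), by
      rw [hF.right _ (hin' x hx), hπp x]⟩)
  filter_upwards [h2] with x hx hx2
  have hxO : x ∈ Metric.ball (0 : ι → ℝ) 3 := by
    rw [mem_ball_zero_iff, pi_norm_lt_iff (by norm_num)]
    intro i
    rw [Real.norm_eq_abs, abs_lt]
    constructor <;> linarith [(hx2 i).1, (hx2 i).2]
  intro ν ν'
  have key := hx hxO (τ ν) (τ ν')
  rw [← key]
  have hg : ∀ (y : ι → ℝ) ν, pd (fun _ : ι → ℝ => (0 : ℝ)) y ν = 0 := by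
    intro y ν
    unfold pd
    rw [fderiv_fun_const]
    rfl
  unfold Fcon Acon Qx
  simp only [fpe_pd, hg]

end Pool.Agent.Helper83.CB
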