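import Pool.Agent.Helper83.CB.Defs4

set_option autoImplicit false

open Filter Topology MeasureTheory

namespace Pool.Agent.Helper83.CB

section
variable {ι : Type} [Fintype ι] [DecidableEq ι]

theorem fsh_pd_shift {W : Type*} [NormedAddCommGroup W] [NormedSpace ℝ W] (f : (ι → ℝ) → W)
    (v x : ι → ℝ) (μ : ι) : pd (fun y => f (y + v)) x μ = pd f (x + v) μ := by
  unfold pd
  rw [fderiv_comp_add_right]

end

theorem fsh_ae {ι : Type} [Fintype ι] (μ : ι) (c : ℝ) : ∀ᵐ x : ι → ℝ, x μ ≠ c := by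
  have := Measure.ae_eval_ne (fun _ : ι => (volume : Measure ℝ)) μ c
  exact this

theorem st_FSH (hOVER : ST_OVER) : ST_FSH := by
  intro n N0 N hS hU k hk Q0 Q1 hQ ι _ _ π g hπ hπp hgp L K hF μ
  set v : ι → ℝ := Pi.single μ 1 with hv
  set O : Set (ι → ℝ) := Metric.ball 0 3 ∩ (fun x => x + v) ⁻¹' (Metric.ball 0 3) with hO
  have hOo : IsOpen O := Metric.isOpen_ball.inter (Metric.isOpen_ball.preimage (by fun_prop))
  obtain ⟨CL, hL⟩ := hF.lipL
  obtain ⟨CK, hK⟩ := hF.lipK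
  have hshift : LipschitzWith 1 (fun x : ι → ℝ => x + v) := by
    apply LipschitzWith.of_dist_le_mul
    intro x y
    simp
  have hin : ∀ x ∈ O, x ∈ Metric.closedBall (0 : ι → ℝ) 3 :=
    fun x hx => Metric.ball_subset_closedBall hx.1
  have hin' : ∀ x ∈ O, x + v ∈ Metric.closedBall (0 : ι → ℝ) 3 :=
    fun x hx => Metric.ball_subset_closedBall hx.2
  obtain ⟨h1, h2⟩ := hOVER n N0 N hS hU k hk Q0 Q1 hQ ι O π K (fun x => K (x + v)) L
    (fun x => L (x + v)) g hOo hπ ⟨CK, hK.lipschitzOnWith⟩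
    ⟨CK * 1, (hK.comp hshift).lipschitzOnWith⟩
    ⟨CL, hL.lipschitzOnWith⟩ ⟨CL * 1, (hL.comp hshift).lipschitzOnWith⟩
    (fun x hx => ⟨hF.mem x (hin x hx), hF.left x (hin x hx), hF.right x (hin x hx)⟩)
    (fun x hx => ⟨hF.mem _ (hin' x hx), hF.left _ (hin' x hx), by
      rw [hF.right _ (hin' x hx), hπp x μ]⟩)
  filter_upwards [h2, fsh_ae μ 2] with x hx hne hx2
  have hxO : x ∈ O := by
    constructor
    · rw [mem_ball_zero_iff, pi_norm_lt_iff (by norm_num)]
      intro i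
      rw [Real.norm_eq_abs, abs_lt]
      constructor <;> linarith [(hx2 i).1, (hx2 i).2]
    · change x + v ∈ Metric.ball 0 3
      rw [mem_ball_zero_iff, pi_norm_lt_iff (by norm_num)]
      intro i
      rw [Real.norm_eq_abs, abs_lt, Pi.add_apply]
      by_cases hi : i = μ
      · subst hi
        rw [hv, Pi.single_eq_same]
        have : x i < 2 := lt_of_le_of_ne (hx2 i).2 hne
        constructor <;> linarith [(hx2 i).1]
      · rw [hv, Pi.single_eq_of_ne hi]
        constructor <;> linarith [(hx2 i).1, (hx2 i).2]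
  refine ⟨(h1 x hxO).1, ?_⟩
  intro ν ν'
  have key := hx hxO ν ν'
  rw [← key]
  have hg : ∀ ν, pd g x ν = pd g (x + v) ν := by
    intro ν
    rw [← fsh_pd_shift g v x ν]
    congr 1
    ext y
    exact (hgp y μ).symm
  unfold Fcon Acon Qx
  simp only [fsh_pd_shift, hg]
  have hgx : g x = g (x + v) := (hgp x μ).symm
  rw [hgx]

end Pool.Agent.Helper83.CB
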