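import Pool.Agent.Helper83.CB.Defs4

set_option autoImplicit false

open Filter Topology MeasureTheory

namespace Pool.Agent.Helper83.CB

/-- composition is a bounded real bilinear map -/
theorem fsm_bil (n m l : ℕ) : IsBoundedBilinearMap ℝ
    (fun p : (E m →L[ℂ] E l) × (E n →L[ℂ] E m) => p.1.comp p.2) where
  add_left x₁ x₂ y := ContinuousLinearMap.add_comp _ _ _
  smul_left c x y := by
    ext1 z
    rfl
  add_right x y₁ y₂ := ContinuousLinearMap.comp_add _ _ _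
  smul_right c x y := by
    ext1 z
    exact x.toLinearMap.map_smul_of_tower c (y z)
  bound := ⟨1, zero_lt_one, fun x y => by
    rw [one_mul]
    exact ContinuousLinearMap.opNorm_comp_le x y⟩

section
variable {ι : Type} [Fintype ι] [DecidableEq ι]

theorem fsm_pd_comp {n m l : ℕ} {K : (ι → ℝ) → E m →L[ℂ] E l} {B : (ι → ℝ) → E n →L[ℂ] E m}
    {x : ι → ℝ} (hK : DifferentiableAt ℝ K x) (hB : DifferentiableAt ℝ B x) (μ : ι) :
    pd (fun y => (K y).comp (B y)) x μ = (pd K x μ).comp (B x) + (K x).comp (pd B x μ) := by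
  have h1 := (fsm_bil n m l).hasFDerivAt (K x, B x)
  have h2 := h1.comp x (hK.hasFDerivAt.prodMk hB.hasFDerivAt)
  have h3 : HasFDerivAt (fun y => (K y).comp (B y))
    (((fsm_bil n m l).deriv (K x, B x)).comp ((fderiv ℝ K x).prod (fderiv ℝ B x))) x := h2
  unfold pd
  rw [h3.fderiv]
  rw [add_comm]
  rfl

theorem fsm_pd_add {W : Type*} [NormedAddCommGroup W] [NormedSpace ℝ W] {f g : (ι → ℝ) → W}
    {x : ι → ℝ} (hf : DifferentiableAt ℝ f x) (hg : DifferentiableAt ℝ g x) (μ : ι) :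
    pd (fun y => f y + g y) x μ = pd f x μ + pd g x μ := by
  unfold pd
  rw [fderiv_fun_add hf hg]
  rfl

theorem fsm_pd_smul {W : Type*} [NormedAddCommGroup W] [NormedSpace ℝ W] {f : (ι → ℝ) → W}
    {g : (ι → ℝ) → ℝ}
    {x : ι → ℝ} (hf : DifferentiableAt ℝ f x) (hg : DifferentiableAt ℝ g x) (μ : ι) :
    pd (fun y => g y • f y) x μ = g x • pd f x μ + pd g x μ • f x := by
  unfold pd
  rw [fderiv_fun_smul hg hf]
  rfl

theorem fsm_pd_lin {W W' : Type*} [NormedAddCommGroup W] [NormedSpace ℝ W]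
    [FiniteDimensional ℝ W] [NormedAddCommGroup W'] [NormedSpace ℝ W'] (Q : W →ₗ[ℝ] W')
    {f : (ι → ℝ) → W} {x : ι → ℝ} (hf : DifferentiableAt ℝ f x) (μ : ι) :
    pd (fun y => Q (f y)) x μ = Q (pd f x μ) := by
  have h := (LinearMap.toContinuousLinearMap Q).hasFDerivAt.comp x hf.hasFDerivAt
  have h3 : HasFDerivAt (fun y => Q (f y))
    ((LinearMap.toContinuousLinearMap Q).comp (fderiv ℝ f x)) x := h
  unfold pd
  rw [h3.fderiv]
  rfl

theorem fsm_symm {W : Type*} [NormedAddCommGroup W] [NormedSpace ℝ W] {L : (ι → ℝ) → W}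
    (hL : ContDiff ℝ (⊤ : ℕ∞) L) (x : ι → ℝ) (μ ν : ι) :
    pd (fun y => pd L y ν) x μ = pd (fun y => pd L y μ) x ν := by
  have hd : DifferentiableAt ℝ (fderiv ℝ L) x :=
    ((hL.fderiv_right (m := 1) (by norm_cast)).differentiable (by simp)) x
  have key : ∀ v w : ι → ℝ, fderiv ℝ (fun y => fderiv ℝ L y v) x w =
      fderiv ℝ (fderiv ℝ L) x w v := by
    intro v w
    have h1 := hd.hasFDerivAt.clm_apply (hasFDerivAt_const v x)
    rw [h1.fderiv]
    simp
  have hs : IsSymmSndFDerivAt ℝ L x := by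
    apply ContDiffAt.isSymmSndFDerivAt (n := (⊤ : ℕ∞)) hL.contDiffAt
    simp only [minSmoothness_of_isRCLikeNormedField]
    exact WithTop.coe_le_coe.2 (le_top : (2 : ℕ∞) ≤ ⊤)
  unfold pd
  rw [key, key]
  exact hs _ _

end

theorem st_FSM : ST_FSM := by
  intro ι _ _ n K L g Q0 Q1 hK hL hg
  have hpdL : ∀ μ, ContDiff ℝ (⊤ : ℕ∞) (fun x => pd L x μ) := fun μ =>
    (hL.fderiv_right (m := (⊤ : ℕ∞)) (by simp)).clm_apply contDiff_const
  have hKL : ∀ μ, ContDiff ℝ (⊤ : ℕ∞) (fun x => (K x).comp (pd L x μ)) := fun μ =>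
    (fsm_bil n (n + 1) n).contDiff.comp (hK.prodMk (hpdL μ))
  have hQ : ∀ (Q : M n →ₗ[ℝ] M n) μ, ContDiff ℝ (⊤ : ℕ∞) (fun x => Q ((K x).comp (pd L x μ))) :=
    fun Q μ => (LinearMap.toContinuousLinearMap Q).contDiff.comp (hKL μ)
  have htop : ∀ {W : Type} [NormedAddCommGroup W] [NormedSpace ℝ W] {f : (ι → ℝ) → W},
      ContDiff ℝ (⊤ : ℕ∞) f → ∀ x, DifferentiableAt ℝ f x := by
    intro W _ _ f hf x
    exact (hf.differentiable (by simp)) x
  refine ⟨fun μ => (hQ Q0 μ).add (hg.smul (hQ Q1 μ)), ?_⟩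
  intro x μ ν
  have hA : ∀ μ ν, pd (fun x => Acon K L g Q0 Q1 x ν) x μ =
      Q0 ((pd K x μ).comp (pd L x ν) + (K x).comp (pd (fun y => pd L y ν) x μ)) +
      (g x • Q1 ((pd K x μ).comp (pd L x ν) + (K x).comp (pd (fun y => pd L y ν) x μ)) +
        pd g x μ • Q1 ((K x).comp (pd L x ν))) := by
    intro μ ν
    have h1 := fsm_pd_comp (htop hK x) (htop (hpdL ν) x) μ
    have h2 := fsm_pd_lin Q0 (htop (hKL ν) x) μ
    have h3 := fsm_pd_lin Q1 (htop (hKL ν) x) μ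
    have h4 := fsm_pd_smul (htop (hQ Q1 ν) x) (htop hg x) μ
    have h5 := fsm_pd_add (g := fun y => g y • Q1 ((K y).comp (pd L y ν)))
      (htop (hQ Q0 ν) x) (htop (hg.smul (hQ Q1 ν)) x) μ
    change pd (fun y => Q0 ((K y).comp (pd L y ν)) + g y • Q1 ((K y).comp (pd L y ν))) x μ = _
    rw [h5, h4, h2, h3, h1]
  unfold Fcon Fsm
  rw [hA μ ν, hA ν μ, fsm_symm hL x μ ν]
  unfold Qx
  simp only [map_sub, map_add, smul_sub, smul_add]
  abel

end Pool.Agent.Helper83.CB
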