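import Pool.Agent.Helper83.CB.Defs4

set_option autoImplicit false

open Filter Topology MeasureTheory

namespace Pool.Agent.Helper83.CB

theorem st_SMC : ST_SMC := by
  intro ι _ _ Λ ω hω hcl g hg hgc
  have hgd : Differentiable ℝ g := hg.differentiable (by simp)
  have hωd : Differentiable ℝ ω := hω.differentiable (by simp)
  have hgcont : Continuous (fderiv ℝ g) := hg.continuous_fderiv (by simp)
  have hωcont : Continuous (fderiv ℝ ω) := hω.continuous_fderiv (by simp)
  have hparts : ∀ μ, ∫ x, pd g x μ • (Λ.e μ * ω x) = - ∫ x, g x • (Λ.e μ * pd ω x μ) := by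
    intro μ
    set f : (ι → ℝ) → (Λ.X →L[ℝ] Λ.X) := fun x => Λ.e μ * ω x with hf
    have hfd : ∀ x, HasFDerivAt f ((ContinuousLinearMap.mul ℝ (Λ.X →L[ℝ] Λ.X) (Λ.e μ)).comp
        (fderiv ℝ ω x)) x := by
      intro x
      exact (ContinuousLinearMap.mul ℝ (Λ.X →L[ℝ] Λ.X) (Λ.e μ)).hasFDerivAt.comp x
        (hωd x).hasFDerivAt
    have hfderiv : ∀ x, fderiv ℝ f x (Pi.single μ 1) = Λ.e μ * pd ω x μ := by
      intro x
      rw [(hfd x).fderiv]
      rfl
    have hfcont : Continuous f := continuous_const.mul hω.continuous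
    have hfd' : Differentiable ℝ f := fun x => (hfd x).differentiableAt
    have hfdc : Continuous fun x => fderiv ℝ f x (Pi.single μ 1) := by
      have : (fun x => fderiv ℝ f x (Pi.single μ 1)) = fun x => Λ.e μ * pd ω x μ := funext hfderiv
      rw [this]
      exact continuous_const.mul (hωcont.clm_apply continuous_const)
    have hgpc : HasCompactSupport (fun x => fderiv ℝ g x (Pi.single μ 1)) := by
      have h1 := hgc.fderiv (𝕜 := ℝ)
      exact h1.comp_left (g := fun L : (ι → ℝ) →L[ℝ] ℝ => L (Pi.single μ 1)) rfl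
    have key := integral_smul_fderiv_eq_neg_fderiv_smul_of_integrable (μ := (volume : Measure (ι → ℝ)))
      (f := g) (g := f) (v := Pi.single μ (1 : ℝ)) (𝕜 := ℝ)
      (((hgcont.clm_apply continuous_const).smul hfcont).integrable_of_hasCompactSupport
        hgpc.smul_right)
      ((hgd.continuous.smul hfdc).integrable_of_hasCompactSupport hgc.smul_right)
      ((hgd.continuous.smul hfcont).integrable_of_hasCompactSupport hgc.smul_right)
      (fun x _ => hgd x) (fun x _ => hfd' x)
    have key2 : ∫ x, g x • (Λ.e μ * pd ω x μ) = -∫ x, pd g x μ • (Λ.e μ * ω x) := by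
      have h1 : (fun x => g x • (Λ.e μ * pd ω x μ)) =
          fun x => g x • fderiv ℝ f x (Pi.single μ 1) := by
        ext x : 1
        rw [hfderiv x]
      rw [h1]
      exact key
    rw [key2, neg_neg]
  rw [Finset.sum_congr rfl (fun μ _ => hparts μ), Finset.sum_neg_distrib, ← integral_finsetSum]
  · have : (fun x => ∑ μ, g x • (Λ.e μ * pd ω x μ)) = fun _ => 0 := by
      ext x : 1
      rw [← Finset.smul_sum, hcl x, smul_zero]
    rw [this, integral_zero, neg_zero]
  · intro μ _
    apply Continuous.integrable_of_hasCompactSupport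
    · exact hgd.continuous.smul (continuous_const.mul (hωcont.clm_apply continuous_const))
    · exact hgc.smul_right

end Pool.Agent.Helper83.CB
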