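import Pool.Agent.Helper83.CB.Defs4

set_option autoImplicit false

open Filter Topology MeasureTheory

namespace Pool.Agent.Helper83.CB

theorem tan_mul_smul {n : ℕ} (r : ℝ) (A B : M n) : A * (r • B) = r • (A * B) := by
  ext1 z
  exact A.toLinearMap.map_smul_of_tower r (B z)

theorem st_TAN (hGRP : ST_GRP) : ST_TAN := by
  intro n N0 hN hU k hk ι _ _ a x ha hev μ
  obtain ⟨_, _, hmul, hstar⟩ := hGRP n N0 hN hU
  have hax : a x ∈ PP N0 N0 := hev.self_of_nhds
  obtain ⟨hs1, hs2, _⟩ := hstar _ hax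
  obtain ⟨δ, hδ, hball⟩ := Metric.eventually_nhds_iff.1 hev
  set c : ℕ → ℝ := fun j => ((j : ℝ) + 2) / δ with hc
  have hc0 : ∀ j, 0 < c j := fun j => by positivity
  have hctop : Tendsto c atTop atTop := by
    apply Tendsto.atTop_div_const hδ
    exact tendsto_atTop_add_const_right _ _ tendsto_natCast_atTop_atTop
  have hcn : Tendsto (fun j => ‖c j‖) atTop atTop := tendsto_norm_atTop_atTop.comp hctop
  have hlim := ha.hasFDerivAt.lim (Pi.single μ (1 : ℝ)) hcn
  have hmem : ∀ j, a (x + (c j)⁻¹ • Pi.single μ (1 : ℝ)) ∈ PP N0 N0 := by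
    intro j
    apply hball
    rw [dist_eq_norm, add_sub_cancel_left, norm_smul, Real.norm_eq_abs,
      abs_of_pos (inv_pos.2 (hc0 j))]
    have h1 : ‖(Pi.single μ (1 : ℝ) : ι → ℝ)‖ = 1 := by
      rw [Pi.norm_single]; simp
    rw [h1, mul_one, hc, inv_div, div_lt_iff₀ (by positivity)]
    have : (0 : ℝ) ≤ j := Nat.cast_nonneg j
    nlinarith
  apply hk.seq (fun j => star (a x) * a (x + (c j)⁻¹ • Pi.single μ (1 : ℝ))) (fun j => (c j)⁻¹) _
    (fun j => hmul _ hs1 _ (hmem j)) (fun j => inv_pos.2 (hc0 j))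
  · exact hctop.inv_tendsto_atTop
  · have h2 : Tendsto (fun j => star (a x) * (c j • (a (x + (c j)⁻¹ • Pi.single μ (1 : ℝ)) - a x)))
        atTop (𝓝 (star (a x) * pd a x μ)) := by
      exact (tendsto_const_nhds (x := star (a x))).mul hlim
    refine h2.congr (fun j => ?_)
    simp only [inv_inv]
    rw [tan_mul_smul, mul_sub, hs2]

end Pool.Agent.Helper83.CB
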